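import Mathlib
import Pool.Agent.V1190.WS.Omega
import Pool.Agent.V1190.WS.Op
import Pool.Agent.V1190.WS.Vec
import Pool.Agent.V1190.WS.Main

/-! A compact operator which is weakly supercyclic but not supercyclic. -/

open Filter Topology ZeroAtInfty

namespace Pool.Agent.Results.MP_32446a_an.CompactShift

open Pool.Agent.V1190.WS

section Defs

variable (𝕜 : Type) [RCLike 𝕜] {E : Type} [NormedAddCommGroup E] [NormedSpace 𝕜 E]

/-- The projective orbit of a vector. -/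
def projOrbit (T : E →L[𝕜] E) (x : E) : Set E := {y | ∃ (c : 𝕜) (n : ℕ), y = c • (T ^ n) x}

/-- Supercyclic operators. -/
def Supercyclic (T : E →L[𝕜] E) : Prop := ∃ x : E, Dense (projOrbit 𝕜 T x)

/-- Weakly supercyclic operators: density of a projective orbit in the weak topology. -/
def WeaklySupercyclic (T : E →L[𝕜] E) : Prop :=
  ∃ x : E, Dense ((toWeakSpace 𝕜 E) '' (projOrbit 𝕜 T x))

lemma weak_dense {S : Set E}
    (h : ∀ (z : E) (F : Finset (E →L[𝕜] 𝕜)) (r : ℝ), 0 < r → ∃ y ∈ S, ∀ f ∈ F, ‖f (y - z)‖ < r) :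
    Dense ((toWeakSpace 𝕜 E) '' S) := by
  intro z
  have hws : WithSeminorms (LinearMap.toSeminormFamily (topDualPairing 𝕜 E).flip :
      (E →L[𝕜] 𝕜) → Seminorm 𝕜 (WeakSpace 𝕜 E)) :=
    LinearMap.weakBilin_withSeminorms (topDualPairing 𝕜 E).flip
  refine (mem_closure_iff_nhds_basis (hws.hasBasis_ball (x := z))).2 ?_
  rintro ⟨F, r⟩ hr
  obtain ⟨y, hy, hyf⟩ := h ((toWeakSpace 𝕜 E).symm z) F r hr
  refine ⟨toWeakSpace 𝕜 E y, ⟨y, hy, rfl⟩, ?_⟩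
  dsimp only
  rw [Seminorm.ball_finset_sup_eq_iInter _ _ _ hr]
  simp only [Set.mem_iInter]
  intro f hf
  rw [Seminorm.mem_ball]
  exact hyf f hf

end Defs

section

variable {𝕜 : Type} [RCLike 𝕜]

lemma exists_targets : ∃ u : ℕ → ℤ → 𝕜, (∀ (P : ℕ) (m : ℤ), (P:ℤ) < |m| → u P m = 0) ∧
    (∀ (P : ℕ) (m : ℤ), ‖u P m‖ ≤ (2:ℝ) ^ P) ∧
    ∀ (s : Finset ℤ) (a : ℤ → 𝕜) (δ : ℝ), 0 < δ → ∀ P0 : ℕ, ∃ P, P0 ≤ P ∧
      (∀ k, k ∉ s → u P k = 0) ∧ ∀ k ∈ s, ‖u P k - a k‖ < δ := by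
  classical
  obtain ⟨en, hen⟩ := exists_surjective_nat (ℤ →₀ ℕ)
  set h : ℕ → 𝕜 := fun n => if n = 0 then 0 else TopologicalSpace.denseSeq 𝕜 (n - 1) with hh
  set D : ℕ → ℤ → 𝕜 := fun i k => h (en i k) with hD
  refine ⟨fun P => if (∀ k : ℤ, (P:ℤ) < |k| → D (Nat.unpair P).1 k = 0) ∧
    (∀ k, ‖D (Nat.unpair P).1 k‖ ≤ (2:ℝ) ^ P) then D (Nat.unpair P).1 else 0, ?_, ?_, ?_⟩
  · intro P m hm
    dsimp only
    split_ifs with hc
    · exact hc.1 m hm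
    · rfl
  · intro P m
    dsimp only
    split_ifs with hc
    · exact hc.2 m
    · simp
  · intro s a δ hδ P0
    have hex : ∀ k : ℤ, ∃ n : ℕ, ‖TopologicalSpace.denseSeq 𝕜 n - a k‖ < δ := by
      intro k
      obtain ⟨n, hn⟩ := (TopologicalSpace.denseRange_denseSeq 𝕜).exists_dist_lt (a k) hδ
      refine ⟨n, ?_⟩
      rwa [dist_comm, dist_eq_norm] at hn
    choose g0 hg0 using hex
    obtain ⟨i, hi⟩ := hen (Finsupp.onFinset s (fun k => if k ∈ s then g0 k + 1 else 0) (by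
      intro k hk
      by_contra hc
      exact hk (if_neg hc)))
    have hDi : ∀ k, D i k = if k ∈ s then TopologicalSpace.denseSeq 𝕜 (g0 k) else 0 := by
      intro k
      simp only [hD, hi, Finsupp.onFinset_apply, hh]
      by_cases hk : k ∈ s
      · simp [hk]
      · simp [hk]
    obtain ⟨K, hK⟩ : ∃ K : ℕ, ∀ k ∈ s, |k| ≤ K := by
      refine ⟨∑ k ∈ s, k.natAbs, fun k hk => ?_⟩
      have : k.natAbs ≤ ∑ k ∈ s, k.natAbs :=
        Finset.single_le_sum (f := fun k : ℤ => k.natAbs) (fun _ _ => Nat.zero_le _) hk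
      rw [Int.abs_eq_natAbs]
      exact_mod_cast this
    obtain ⟨L, hL⟩ : ∃ L : ℕ, ∑ k ∈ s, ‖D i k‖ ≤ (2:ℝ) ^ L := by
      obtain ⟨L, hL⟩ := pow_unbounded_of_one_lt (∑ k ∈ s, ‖D i k‖) (by norm_num : (1:ℝ) < 2)
      exact ⟨L, hL.le⟩
    set t := P0 + K + L with ht
    set P := Nat.pair i t with hP
    have hPt : t ≤ P := Nat.right_le_pair i t
    have h1 : (Nat.unpair P).1 = i := by rw [hP, Nat.unpair_pair]
    have hcond : (∀ k : ℤ, (P:ℤ) < |k| → D (Nat.unpair P).1 k = 0) ∧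
        (∀ k, ‖D (Nat.unpair P).1 k‖ ≤ (2:ℝ) ^ P) := by
      rw [h1]
      constructor
      · intro k hk
        rw [hDi, if_neg]
        intro hks
        have := hK k hks
        have h2 : (K:ℤ) ≤ P := by exact_mod_cast (by omega)
        linarith
      · intro k
        have h3 : (2:ℝ) ^ L ≤ (2:ℝ) ^ P := pow_le_pow_right₀ (by norm_num) (by omega)
        by_cases hks : k ∈ s
        · exact ((Finset.single_le_sum (f := fun k => ‖D i k‖)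
            (fun _ _ => norm_nonneg _) hks).trans hL).trans h3
        · rw [hDi, if_neg hks, norm_zero]
          positivity
    refine ⟨P, by omega, ?_, ?_⟩
    · intro k hk
      dsimp only
      rw [if_pos hcond, h1, hDi, if_neg hk]
    · intro k hk
      dsimp only
      rw [if_pos hcond, h1, hDi, if_pos hk]
      exact hg0 k

lemma target_close {u : ℕ → ℤ → 𝕜} (hu0 : ∀ (P : ℕ) (m : ℤ), (P:ℤ) < |m| → u P m = 0)
    (hu2 : ∀ (s : Finset ℤ) (a : ℤ → 𝕜) (δ : ℝ), 0 < δ → ∀ P0 : ℕ, ∃ P, P0 ≤ P ∧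
      (∀ k, k ∉ s → u P k = 0) ∧ ∀ k ∈ s, ‖u P k - a k‖ < δ)
    (z : B 𝕜) {η : ℝ} (hη : 0 < η) (P0 : ℕ) : ∃ P, P0 ≤ P ∧ ‖io hu0 P - z‖ ≤ η := by
  obtain ⟨s, hs⟩ := exists_approx z hη
  set W : ℝ := ∑ k ∈ s, ‖(tw (om k) : 𝕜)‖ with hW
  have hW0 : 0 ≤ W := Finset.sum_nonneg fun _ _ => norm_nonneg _
  obtain ⟨P, hP, h1, h2⟩ := hu2 s (fun k => (tw (om k))⁻¹ * z k) (η / (W + 1)) (by positivity) P0
  refine ⟨P, hP, norm_le_of hη.le fun k => ?_⟩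
  rw [ZeroAtInftyContinuousMap.sub_apply, io_apply]
  by_cases hk : k ∈ s
  · have e1 : tw (om k) * u P k - z k = tw (om k) * (u P k - (tw (om k))⁻¹ * z k) := by
      rw [mul_sub, ← mul_assoc, mul_inv_cancel₀ (tw_ne _), one_mul]
    rw [e1, norm_mul]
    calc _ ≤ W * (η / (W + 1)) := by
          apply mul_le_mul _ (h2 k hk).le (norm_nonneg _) hW0
          exact Finset.single_le_sum (f := fun k => ‖(tw (om k) : 𝕜)‖)
            (fun _ _ => norm_nonneg _) hk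
      _ ≤ η := by
          rw [mul_div_assoc', div_le_iff₀ (by positivity)]
          nlinarith
  · rw [h1 k hk, mul_zero, zero_sub, norm_neg]
    exact (hs k hk).le

lemma weakly : WeaklySupercyclic 𝕜 (T : B 𝕜 →L[𝕜] B 𝕜) := by
  obtain ⟨u, hu0, hu1, hu2⟩ := exists_targets (𝕜 := 𝕜)
  refine ⟨∑' Q, XP hu0 Q, weak_dense 𝕜 ?_⟩
  intro z' F r hr
  set Φ : ℝ := ∑ g ∈ F, ‖(g : B 𝕜 →L[𝕜] 𝕜)‖ with hΦ
  have hΦ0 : 0 ≤ Φ := Finset.sum_nonneg fun g _ => ContinuousLinearMap.opNorm_nonneg g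
  have hlim : Tendsto (fun P : ℕ => Φ / ((P:ℝ) + 1) + Φ * (1 / 2) ^ (P + 1)) atTop (𝓝 0) := by
    have h1 : Tendsto (fun P : ℕ => Φ / ((P:ℝ) + 1)) atTop (𝓝 0) :=
      tendsto_const_nhds.div_atTop (tendsto_atTop_add_const_right _ _ tendsto_natCast_atTop_atTop)
    have h2 : Tendsto (fun P : ℕ => Φ * (1 / 2 : ℝ) ^ (P + 1)) atTop (𝓝 (Φ * 0)) :=
      ((tendsto_pow_atTop_nhds_zero_of_lt_one (r := (1:ℝ) / 2) (by norm_num)
        (by norm_num)).comp (tendsto_add_atTop_nat 1)).const_mul Φ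
    have := h1.add h2
    rwa [mul_zero, add_zero] at this
  obtain ⟨P0, hP0⟩ := eventually_atTop.1 (hlim.eventually (gt_mem_nhds (half_pos hr)))
  obtain ⟨P, hP, hcl⟩ := target_close hu0 hu2 z' (η := r / (2 * (Φ + 1))) (by positivity) P0
  obtain ⟨c, n, hcn⟩ := packet hu0 hu1 F P
  refine ⟨c • (T ^ n) (∑' Q, XP hu0 Q), ⟨c, n, rfl⟩, ?_⟩
  intro f hf
  have e1 : c • (T ^ n) (∑' Q, XP hu0 Q) - z' =
      (c • (T ^ n) (∑' Q, XP hu0 Q) - io hu0 P) + (io hu0 P - z') := by abel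
  rw [e1, map_add]
  have h3 : ‖(f : B 𝕜 →L[𝕜] 𝕜) (c • (T ^ n) (∑' Q, XP hu0 Q) - io hu0 P)‖ < r / 2 := by
    rw [map_sub]
    exact (hcn f hf).trans_lt (hP0 P hP)
  have h4 : ‖(f : B 𝕜 →L[𝕜] 𝕜) (io hu0 P - z')‖ ≤ r / 2 := by
    refine ((f : B 𝕜 →L[𝕜] 𝕜).le_opNorm _).trans ?_
    have h5 : ‖(f : B 𝕜 →L[𝕜] 𝕜)‖ ≤ Φ :=
      Finset.single_le_sum (f := fun g : B 𝕜 →L[𝕜] 𝕜 => ‖g‖)
        (fun g _ => ContinuousLinearMap.opNorm_nonneg g) hf
    calc _ ≤ Φ * (r / (2 * (Φ + 1))) := mul_le_mul h5 hcl (norm_nonneg _) hΦ0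
      _ ≤ r / 2 := by
          rw [mul_div_assoc', div_le_div_iff₀ (by positivity) (by norm_num)]
          nlinarith
  exact (norm_add_le _ _).trans_lt (by linarith)

lemma not_super : ¬ Supercyclic 𝕜 (T : B 𝕜 →L[𝕜] B 𝕜) := by
  rintro ⟨x, hx⟩
  have hT0 : ∀ n : ℕ, (T ^ n) x 0 = tw (-(Om n : ℤ)) * x n := by
    intro n
    rw [T_pow_apply, om_zero, zero_add, om_nat, zero_sub]
  -- a nonzero coordinate
  obtain ⟨k0, hk0⟩ : ∃ k0 : ℕ, x k0 ≠ 0 := by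
    obtain ⟨y, ⟨c, n, rfl⟩, hy⟩ := hx.exists_dist_lt (e 0 : B 𝕜) (ε := 1) one_pos
    refine ⟨n, fun h => ?_⟩
    have h1 := (apply_le ((e 0 : B 𝕜) - c • (T ^ n) x) 0).trans_lt (by rwa [← dist_eq_norm])
    rw [ZeroAtInftyContinuousMap.sub_apply, ZeroAtInftyContinuousMap.smul_apply, hT0, h, mul_zero,
      smul_zero, sub_zero, e_apply, if_pos rfl, norm_one] at h1
    exact lt_irrefl _ h1
  -- ratios at small times
  set R : Set 𝕜 := (fun n : ℕ => (T ^ n) x 1 / (T ^ n) x 0) '' (Set.Iic k0) with hR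
  have hRf : R.Finite := (Set.finite_Iic k0).image _
  obtain ⟨j, hj⟩ : ∃ j : ℕ, (j : 𝕜) ∉ R := by
    have hinf : (Set.range (fun j : ℕ => (j : 𝕜))).Infinite :=
      Set.infinite_range_of_injective Nat.cast_injective
    obtain ⟨y, ⟨j, rfl⟩, hy⟩ := hinf.exists_notMem_finite hRf
    exact ⟨j, hy⟩
  obtain ⟨ε, hε, hball⟩ := Metric.isOpen_iff.1 hRf.isClosed.isOpen_compl (j : 𝕜) hj
  set δ : ℝ := min (1 / 2) (min (ε / (4 * (j + 1))) (‖x k0‖ / (4 * (‖x‖ + 1)))) with hδ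
  have hxk : 0 < ‖x k0‖ := norm_pos_iff.2 hk0
  have hδ0 : 0 < δ := by
    apply lt_min (by norm_num)
    apply lt_min <;> positivity
  have hδ1 : δ ≤ 1 / 2 := min_le_left _ _
  have hδ2 : δ ≤ ε / (4 * (j + 1)) := (min_le_right _ _).trans (min_le_left _ _)
  have hδ3 : δ ≤ ‖x k0‖ / (4 * (‖x‖ + 1)) := (min_le_right _ _).trans (min_le_right _ _)
  obtain ⟨y, ⟨c, n, rfl⟩, hy⟩ := hx.exists_dist_lt ((e 0 : B 𝕜) + (j : 𝕜) • e 1) hδ0
  rw [dist_comm, dist_eq_norm] at hy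
  have hcoord : ∀ m, ‖c * (T ^ n) x m - ((if m = 0 then 1 else 0) + (j:𝕜) * (if m = 1 then 1 else 0))‖
      < δ := fun m => (apply_le _ m).trans_lt hy
  have h0 := hcoord 0
  have h1 := hcoord 1
  rw [if_pos rfl, if_neg (by norm_num : ¬ (0:ℤ) = 1), mul_zero, add_zero] at h0
  rw [if_neg (by norm_num : ¬ (1:ℤ) = 0), if_pos rfl, mul_one, zero_add] at h1
  have hc0 : 1 / 2 ≤ ‖c * (T ^ n) x 0‖ := by
    have h2 : ‖(1:𝕜)‖ ≤ ‖c * (T ^ n) x 0‖ + ‖c * (T ^ n) x 0 - 1‖ := by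
      have := norm_sub_le (c * (T ^ n) x 0) (c * (T ^ n) x 0 - 1)
      rwa [sub_sub_cancel] at this
    rw [norm_one] at h2
    linarith
  have hne : c * (T ^ n) x 0 ≠ 0 := by
    intro h
    rw [h, norm_zero] at hc0
    norm_num at hc0
  have hcne : c ≠ 0 := left_ne_zero_of_mul hne
  have hTne : (T ^ n) x 0 ≠ 0 := right_ne_zero_of_mul hne
  rcases le_or_gt n k0 with hle | hlt
  · have hmem : (T ^ n) x 1 / (T ^ n) x 0 ∈ R := ⟨n, hle, rfl⟩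
    have hdist : ε ≤ ‖(T ^ n) x 1 / (T ^ n) x 0 - j‖ := by
      by_contra hcon
      push Not at hcon
      have : (T ^ n) x 1 / (T ^ n) x 0 ∈ Metric.ball (j:𝕜) ε := by
        rw [Metric.mem_ball, dist_eq_norm]
        exact hcon
      exact hball this hmem
    have h5 : (T ^ n) x 1 / (T ^ n) x 0 - j =
        ((c * (T ^ n) x 1 - j) - j * (c * (T ^ n) x 0 - 1)) / (c * (T ^ n) x 0) := by
      field_simp
      ring
    have h6 : ‖(c * (T ^ n) x 1 - j) - j * (c * (T ^ n) x 0 - 1)‖ ≤ δ * (j + 1) := by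
      refine (norm_sub_le _ _).trans ?_
      rw [norm_mul, RCLike.norm_natCast]
      nlinarith [Nat.cast_nonneg (α := ℝ) j]
    have h7 : ‖(T ^ n) x 1 / (T ^ n) x 0 - j‖ ≤ 2 * (δ * (j + 1)) := by
      rw [h5, norm_div, div_le_iff₀ (by linarith)]
      nlinarith [norm_nonneg ((c * (T ^ n) x 1 - j) - j * (c * (T ^ n) x 0 - 1))]
    have h8 : δ * (j + 1) ≤ ε / 4 := by
      calc δ * (j + 1) ≤ ε / (4 * (j + 1)) * (j + 1) := by gcongr
        _ = ε / 4 := by field_simp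
    linarith
  · have h2 := hcoord ((k0:ℤ) - n)
    have e1 : ((k0:ℤ) - n) ≠ 0 := by omega
    have e2 : ((k0:ℤ) - n) ≠ 1 := by omega
    rw [if_neg e1, if_neg e2, mul_zero, add_zero, sub_zero, norm_mul, T_pow_apply, norm_mul,
      norm_tw] at h2
    have e3 : (k0:ℤ) - n + n = k0 := by ring
    have e4 : (k0:ℤ) - n = -((n - k0 : ℕ) : ℤ) := by
      rw [Nat.cast_sub hlt.le]; ring
    rw [e3, e4, om_neg, om_nat, om_nat] at h2
    have h3 := Om_super (n - k0) k0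
    rw [Nat.sub_add_cancel hlt.le] at h3
    have h4 : (2:ℝ) ^ (-(Om n : ℤ)) ≤ (2:ℝ) ^ (-(Om (n - k0) : ℤ) - Om k0) := by
      apply zpow_le_zpow_right₀ (by norm_num)
      omega
    have h5 : ‖c‖ * ((2:ℝ) ^ (-(Om n : ℤ)) * ‖x k0‖) < δ :=
      lt_of_le_of_lt (by gcongr) h2
    rw [hT0, norm_mul, norm_mul, norm_tw] at hc0
    have h6 : ‖x n‖ ≤ ‖x‖ := apply_le x n
    set a : ℝ := ‖c‖ * (2:ℝ) ^ (-(Om n : ℤ)) with ha
    have ha0 : 0 ≤ a := by positivity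
    have h7 : 1 / 2 ≤ a * ‖x‖ := by
      calc 1 / 2 ≤ ‖c‖ * ((2:ℝ) ^ (-(Om n : ℤ)) * ‖x n‖) := hc0
        _ = a * ‖x n‖ := by rw [ha]; ring
        _ ≤ a * ‖x‖ := by gcongr
    have h8 : a * ‖x k0‖ < δ := by
      calc a * ‖x k0‖ = ‖c‖ * ((2:ℝ) ^ (-(Om n : ℤ)) * ‖x k0‖) := by rw [ha]; ring
        _ < δ := h5
    have h9 : δ * (4 * (‖x‖ + 1)) ≤ ‖x k0‖ := by
      rwa [le_div_iff₀ (by positivity)] at hδ3
    have h10 : 0 ≤ ‖x‖ := norm_nonneg _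
    nlinarith [mul_le_mul_of_nonneg_left h9 ha0]

end

/-- Over `ℝ` and over `ℂ` there is a Banach space with a compact operator of dense range
which is weakly supercyclic but not supercyclic. -/
theorem result (𝕜 : Type) [RCLike 𝕜] :
    ∃ (E : Type) (_ : NormedAddCommGroup E) (_ : NormedSpace 𝕜 E) (_ : CompleteSpace E)
      (T : E →L[𝕜] E), IsCompactOperator T ∧ DenseRange T ∧
        WeaklySupercyclic 𝕜 T ∧ ¬ Supercyclic 𝕜 T :=
  ⟨B 𝕜, inferInstance, inferInstance, inferInstance, T, T_compact, T_dense, weakly, not_super⟩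

end Pool.Agent.Results.MP_32446a_an.CompactShift
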